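import Pool.Agent.D0H38.TD.Stm2

set_option autoImplicit false

/-! Project TD, module PM. -/

namespace Pool.Agent.D0H70.TD

open Finset Pool.Agent.D0H38.TD

open Classical in
theorem pm_step {V : Type} (G : SimpleGraph V) (S T : Finset V)
    (hS : ∀ v ∈ S, #S ≤ 2 * #(S.filter fun w => G.Adj v w)) (hT : T ⊆ S) (hlt : #T + 2 ≤ #S)
    (m : V → V) (hm : ∀ v ∈ T, m v ∈ T ∧ G.Adj v (m v) ∧ m (m v) = v) :
    ∃ T' ⊆ S, #T' = #T + 2 ∧ ∃ m' : V → V, ∀ v ∈ T', m' v ∈ T' ∧ G.Adj v (m' v) ∧ m' (m' v) = v := by
  have hST : 2 ≤ #(S \ T) := by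
    rw [card_sdiff_of_subset hT]
    omega
  by_cases hadj : ∃ u ∈ S \ T, ∃ v ∈ S \ T, G.Adj u v
  · obtain ⟨u, hu, v, hv, huv⟩ := hadj
    rw [mem_sdiff] at hu hv
    have hne : u ≠ v := huv.ne
    refine ⟨insert u (insert v T), ?_, ?_, fun x => if x = u then v else if x = v then u else m x, ?_⟩
    · intro x hx
      rw [mem_insert, mem_insert] at hx
      rcases hx with rfl | rfl | hx
      · exact hu.1
      · exact hv.1
      · exact hT hx
    · rw [card_insert_of_notMem, card_insert_of_notMem hv.2]
      rw [mem_insert]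
      rintro (h | h)
      · exact hne h
      · exact hu.2 h
    · intro x hx
      rw [mem_insert, mem_insert] at hx
      rcases hx with rfl | rfl | hx
      · refine ⟨by simp, by simpa using huv, by simp [hne.symm]⟩
      · refine ⟨by simp [hne.symm], by simpa [hne.symm] using huv.symm, by simp [hne.symm]⟩
      · have hxu : x ≠ u := fun h => hu.2 (h ▸ hx)
        have hxv : x ≠ v := fun h => hv.2 (h ▸ hx)
        have h1 := hm x hx
        have hmu : m x ≠ u := fun h => hu.2 (h ▸ h1.1)
        have hmv : m x ≠ v := fun h => hv.2 (h ▸ h1.1)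
        simp only [hxu, hxv, hmu, hmv, if_false]
        exact ⟨mem_insert_of_mem (mem_insert_of_mem h1.1), h1.2.1, h1.2.2⟩
  · push Not at hadj
    obtain ⟨u, hu, v, hv, hne⟩ := one_lt_card.1 (show 1 < #(S \ T) by omega)
    have hN : ∀ z ∈ S \ T, #S ≤ 2 * #(T.filter fun w => G.Adj z w) := by
      intro z hz
      refine (hS z (mem_sdiff.1 hz).1).trans (Nat.mul_le_mul_left 2 (card_le_card ?_))
      intro w hw
      rw [mem_filter] at hw ⊢
      refine ⟨?_, hw.2⟩
      by_contra h
      exact hadj z hz w (mem_sdiff.2 ⟨hw.1, h⟩) hw.2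
    have h1 := hN u hu
    have h2 := hN v hv
    have h3 : #(T.filter fun w => G.Adj v w) ≤ #(T.filter fun w => G.Adj v (m w)) := by
      refine card_le_card_of_injOn m ?_ ?_
      · intro w hw
        rw [mem_coe, mem_filter] at hw ⊢
        refine ⟨(hm w hw.1).1, ?_⟩
        rw [(hm w hw.1).2.2]
        exact hw.2
      · intro a ha b hb hab
        rw [mem_coe, mem_filter] at ha hb
        rw [← (hm a ha.1).2.2, ← (hm b hb.1).2.2, hab]
    have h4 : ∃ w ∈ T, G.Adj u w ∧ G.Adj v (m w) := by
      by_contra h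
      push Not at h
      have h5 : Disjoint (T.filter fun w => G.Adj u w) (T.filter fun w => G.Adj v (m w)) := by
        rw [disjoint_left]
        intro w hw hw'
        rw [mem_filter] at hw hw'
        exact h w hw.1 hw.2 hw'.2
      have h6 := card_le_card (union_subset (filter_subset (fun w => G.Adj u w) T)
        (filter_subset (fun w => G.Adj v (m w)) T))
      rw [card_union_of_disjoint h5] at h6
      omega
    obtain ⟨w, hw, huw, hvw⟩ := h4
    rw [mem_sdiff] at hu hv
    have hmw := hm w hw
    have hwm : m w ≠ w := hmw.2.1.ne'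
    have hwu : w ≠ u := fun h => hu.2 (h ▸ hw)
    have hwv : w ≠ v := fun h => hv.2 (h ▸ hw)
    have hmu : m w ≠ u := fun h => hu.2 (h ▸ hmw.1)
    have hmv : m w ≠ v := fun h => hv.2 (h ▸ hmw.1)
    refine ⟨insert u (insert v T), ?_, ?_, fun x => if x = u then w else if x = w then u else
      if x = v then m w else if x = m w then v else m x, ?_⟩
    · intro x hx
      rw [mem_insert, mem_insert] at hx
      rcases hx with rfl | rfl | hx
      · exact hu.1
      · exact hv.1
      · exact hT hx
    · rw [card_insert_of_notMem, card_insert_of_notMem hv.2]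
      rw [mem_insert]
      rintro (h | h)
      · exact hne h
      · exact hu.2 h
    · intro x hx
      rw [mem_insert, mem_insert] at hx
      by_cases hxu : x = u
      · subst hxu
        simp [hwu, hw, huw]
      by_cases hxw : x = w
      · subst hxw
        simp [hwu, huw.symm]
      by_cases hxv : x = v
      · subst hxv
        simp [hxu, hxw, hmw.1, hvw, hwm, hmu, hmv]
      by_cases hxm : x = m w
      · subst hxm
        simp [hxu, hxw, hxv, hvw.symm, Ne.symm hne, hwv.symm]
      · have hxT : x ∈ T := by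
          rcases hx with h | h | h
          · exact absurd h hxu
          · exact absurd h hxv
          · exact h
        have h1 := hm x hxT
        have e1 : m x ≠ u := fun h => hu.2 (h ▸ h1.1)
        have e2 : m x ≠ v := fun h => hv.2 (h ▸ h1.1)
        have e3 : m x ≠ w := fun h => hxm (by rw [← h, h1.2.2])
        have e4 : m x ≠ m w := fun h => hxw (by rw [← h1.2.2, h, hmw.2.2])
        simp only [hxu, hxw, hxv, hxm, e1, e2, e3, e4, if_false]
        exact ⟨mem_insert_of_mem (mem_insert_of_mem h1.1), h1.2.1, h1.2.2⟩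

theorem t_PM : S_PM := by
  classical
  intro V _ G S hE hS
  have hS' : ∀ v ∈ S, #S ≤ 2 * #(S.filter fun w => G.Adj v w) := by
    intro v hv
    have h1 := hS v hv
    have h2 : {w | w ∈ S ∧ G.Adj v w} = (↑(S.filter fun w => G.Adj v w) : Set V) := by
      ext w
      simp
    rwa [h2, Set.ncard_coe_finset] at h1
  have key : ∀ j : ℕ, 2 * j ≤ #S → ∃ T ⊆ S, #T = 2 * j ∧ ∃ m : V → V,
      ∀ v ∈ T, m v ∈ T ∧ G.Adj v (m v) ∧ m (m v) = v := by
    intro j
    induction j with
    | zero =>
      intro _
      exact ⟨∅, empty_subset _, by simp, id, by simp⟩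
    | succ j ih =>
      intro hj
      obtain ⟨T, hT, hc, m, hm⟩ := ih (by omega)
      obtain ⟨T', hT', hc', m', hm'⟩ := pm_step G S T hS' hT (by omega) m hm
      exact ⟨T', hT', by omega, m', hm'⟩
  obtain ⟨k, hk⟩ := hE
  obtain ⟨T, hT, hc, m, hm⟩ := key k (by omega)
  have hTS : T = S := eq_of_subset_of_card_le hT (by omega)
  rw [hTS] at hm
  exact ⟨m, hm⟩

end Pool.Agent.D0H70.TD
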