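import Pool.Agent.D0H38.TD.Stm5
import Pool.Agent.D0H2.TD.Dec2

/-! Module BLK of project TE: blocks with names. -/

set_option autoImplicit false

namespace Pool.Agent.D0H70.TD.Blk

open Pool.Agent.D0H38.TD Finset

theorem parity {V : Type} [DecidableEq V] (J : Finset V) (t : ℕ) :
    ∃ I : Finset V, I ⊆ J ∧ (J \ I).card ≤ 1 ∧ (Even (I.card + t) ∨ I = ∅) := by
  by_cases h : Even (J.card + t)
  · exact ⟨J, Subset.refl _, by simp, Or.inl h⟩
  · rcases J.eq_empty_or_nonempty with hJ | ⟨w, hw⟩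
    · exact ⟨∅, empty_subset _, by simp [hJ], Or.inr rfl⟩
    · refine ⟨J.erase w, erase_subset _ _, ?_, Or.inl ?_⟩
      · rw [sdiff_erase_self hw, card_singleton]
      · rw [card_erase_of_mem hw]
        have h1 : 0 < J.card := card_pos.2 ⟨w, hw⟩
        rw [Nat.not_even_iff_odd] at h
        obtain ⟨k, hk⟩ := h
        exact ⟨k, by omega⟩

theorem t_BLK (hD : S_DEC3) : S_BLK := by
  classical
  intro V _ _ c s K t κ Y Lt forb hs hforb hLt
  obtain ⟨Q, hQ1, hQ2, hQ3, hQ4⟩ := hD V c s κ hs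
  obtain ⟨e⟩ : Nonempty (Q ↪ Lt) := by
    apply Function.Embedding.nonempty_of_card_le
    rw [Fintype.card_coe, Fintype.card_coe]
    exact hQ3.trans hLt
  let blk : Fin K → Finset V := fun a => univ.filter fun v => ∃ P : Q, (e P : Fin K) = a ∧ v ∈ P.1
  have hmem : ∀ a v, v ∈ blk a ↔ ∃ P : Q, (e P : Fin K) = a ∧ v ∈ P.1 := fun a v => by
    simp only [blk, mem_filter, mem_univ, true_and]
  have hinj : ∀ P P' : Q, (e P : Fin K) = e P' → P = P' := fun P P' h => e.injective (Subtype.ext h)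
  have hblk : ∀ P : Q, blk (e P) = P.1 := by
    intro P
    ext v
    rw [hmem]
    constructor
    · rintro ⟨P', h1, h2⟩
      rw [← hinj P' P h1]
      exact h2
    · intro h
      exact ⟨P, rfl, h⟩
  let J : Fin K → Finset V := fun a => (blk a ∩ Y).filter fun w => a ∉ forb w
  have hI := fun a => parity (J a) t
  choose I hI1 hI2 hI3 using hI
  have hIblk : ∀ a, I a ⊆ blk a := fun a =>
    (hI1 a).trans ((filter_subset _ _).trans inter_subset_left)
  have hIY : ∀ a, I a ⊆ Y := fun a =>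
    (hI1 a).trans ((filter_subset _ _).trans inter_subset_right)
  have hIf : ∀ a, ∀ w ∈ I a, a ∉ forb w := fun a w hw => (mem_filter.1 (hI1 a hw)).2
  refine ⟨Lt.filter fun a => (∃ P : Q, (e P : Fin K) = a) ∧ Even ((I a).card + t), I,
    filter_subset _ _, ?_, ?_, ?_, ?_, ?_, ?_⟩
  · refine le_trans (card_le_card (t := univ.image fun P : Q => (e P : Fin K)) ?_) ?_
    · intro a ha
      obtain ⟨-, ⟨P, hP⟩, -⟩ := mem_filter.1 ha
      exact mem_image.2 ⟨P, mem_univ _, hP⟩
    · refine card_image_le.trans ?_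
      rw [card_univ, Fintype.card_coe]
      exact hQ3
  · intro a ha
    rw [mem_filter] at ha
    by_cases h1 : ∃ P : Q, (e P : Fin K) = a
    · have h2 : a ∈ Lt := by
        obtain ⟨P, hP⟩ := h1
        rw [← hP]
        exact (e P).2
      rcases hI3 a with h3 | h3
      · exact absurd ⟨h2, h1, h3⟩ ha
      · exact h3
    · rw [eq_empty_iff_forall_notMem]
      intro v hv
      obtain ⟨P, hP, -⟩ := (hmem a v).1 (hIblk a hv)
      exact h1 ⟨P, hP⟩
  · intro a
    refine ⟨hIY a, ?_, hIf a, ?_⟩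
    · by_cases h1 : ∃ P : Q, (e P : Fin K) = a
      · obtain ⟨P, rfl⟩ := h1
        refine (card_le_card (hIblk _)).trans ?_
        rw [hblk]
        exact (hQ1 P.1 P.2).1
      · have h2 : I a = ∅ := by
          rw [eq_empty_iff_forall_notMem]
          intro v hv
          obtain ⟨P, hP, -⟩ := (hmem a v).1 (hIblk a hv)
          exact h1 ⟨P, hP⟩
        rw [h2, card_empty]
        exact Nat.zero_le _
    · intro u hu v hv
      obtain ⟨P, hP, huP⟩ := (hmem a u).1 (hIblk a hu)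
      obtain ⟨P', hP', hvP⟩ := (hmem a v).1 (hIblk a hv)
      have h1 : P' = P := hinj _ _ (hP'.trans hP.symm)
      rw [h1] at hvP
      exact (hQ1 P.1 P.2).2 u huP v hvP
  · intro a b hab
    rw [disjoint_left]
    intro v hv hv'
    obtain ⟨P, hP, hvP⟩ := (hmem a v).1 (hIblk a hv)
    obtain ⟨P', hP', hvP'⟩ := (hmem b v).1 (hIblk b hv')
    have h1 : P.1 ≠ P'.1 := by
      intro h2
      apply hab
      rw [← hP, ← hP', Subtype.ext h2]
    exact disjoint_left.1 (hQ2 P.1 P.2 P'.1 P'.2 h1) hvP hvP'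
  · intro a ha
    exact (mem_filter.1 ha).2.2
  · have hsub : {w | w ∈ Y ∧ ∀ a, w ∉ I a} ⊆
        (↑(univ.biUnion fun P : Q => (P.1 ∩ Y) \ I (e P)) : Set V) := by
      rintro w ⟨hw, hw2⟩
      obtain ⟨P, hP, hwP⟩ := hQ4 w
      rw [mem_coe, mem_biUnion]
      exact ⟨⟨P, hP⟩, mem_univ _, mem_sdiff.2 ⟨mem_inter.2 ⟨hwP, hw⟩, hw2 _⟩⟩
    refine (Set.ncard_le_ncard hsub (finite_toSet _)).trans ?_
    rw [Set.ncard_coe_finset]
    have h17 : ∀ P : Q, ((P.1 ∩ Y) \ I (e P)).card ≤ 17 := by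
      intro P
      have h1 : (P.1 ∩ Y) \ I (e P) ⊆ (Y.filter fun w => (e P : Fin K) ∈ forb w) ∪
          (J (e P) \ I (e P)) := by
        intro w hw
        rw [mem_sdiff, mem_inter] at hw
        rw [mem_union, mem_filter, mem_sdiff]
        by_cases h2 : (e P : Fin K) ∈ forb w
        · exact Or.inl ⟨hw.1.2, h2⟩
        · refine Or.inr ⟨?_, hw.2⟩
          simp only [J]
          rw [mem_filter, mem_inter, hblk]
          exact ⟨hw.1, h2⟩
      have h3 : (Y.filter fun w => (e P : Fin K) ∈ forb w).card ≤ 16 := by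
        have h4 := hforb (e P) (e P).2
        rw [← Set.ncard_coe_finset]
        convert h4 using 2
        ext w
        simp
      calc _ ≤ _ := card_le_card h1
        _ ≤ _ := card_union_le _ _
        _ ≤ 16 + 1 := add_le_add h3 (hI2 _)
    refine card_biUnion_le.trans ((sum_le_sum fun P _ => h17 P).trans ?_)
    rw [sum_const, card_univ, Fintype.card_coe, smul_eq_mul, mul_comm]
    exact Nat.mul_le_mul_left _ hQ3

end Pool.Agent.D0H70.TD.Blk

namespace Pool.Agent.D0H70.TD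

/-- Module BLK. -/
theorem t_BLK : Pool.Agent.D0H38.TD.S_BLK := Blk.t_BLK Pool.Agent.D0H2.TD.Dec2.t_DEC3

end Pool.Agent.D0H70.TD
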